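import Pool.Agent.Y211.PY.Stm

set_option autoImplicit false

/-! Job 1046 (Y211-PY P3): `1 + x^2 + y^2` is not a sum of two squares in `K(x,y)`. -/

universe u

namespace Pool.Agent.Y839.PY

open Polynomial

section Step

variable {k : Type u} [Field k]

lemma lin_zero (u v : k) (h : (C u * X + C v : k[X]) = 0) : u = 0 ∧ v = 0 := by
  have h0 := congrArg (fun q => Polynomial.coeff q 0) h
  have h1 := congrArg (fun q => Polynomial.coeff q 1) h
  simp [Polynomial.coeff_C] at h0 h1
  exact ⟨h1, h0⟩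

lemma quad_eq (u v w : k) (h : (C u * X ^ 2 + C v * X + C w : k[X]) = 1 + X ^ 2) :
    u = 1 ∧ v = 0 ∧ w = 1 := by
  have h0 := congrArg (fun q => Polynomial.coeff q 0) h
  have h1 := congrArg (fun q => Polynomial.coeff q 1) h
  have h2 := congrArg (fun q => Polynomial.coeff q 2) h
  simp [Polynomial.coeff_C, Polynomial.coeff_X, Polynomial.coeff_one] at h0 h1 h2
  exact ⟨h2, h1, h0⟩

/-- key lemma: `y^2 + c` divides a sum of two squares only if it divides both -/
lemma dvd_both (hk : ∀ a b : k, a ^ 2 + b ^ 2 = 0 → a = 0 ∧ b = 0) {c : k}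
    (hc : ∀ r : k, r ^ 2 ≠ c) (a b : k[X]) (h : (X ^ 2 + C c : k[X]) ∣ a ^ 2 + b ^ 2) :
    (X ^ 2 + C c : k[X]) ∣ a ∧ (X ^ 2 + C c : k[X]) ∣ b := by
  set p : k[X] := X ^ 2 + C c with hp
  have h2 : (2 : k) ≠ 0 := by
    intro h0
    have := hk 1 1 (by linear_combination h0)
    exact one_ne_zero this.1
  have hdeg : p.natDegree = 2 := by
    rw [hp]; compute_degree!
  have hmon : p.Monic := by
    rw [hp]; monicity!
  have hp1 : p ≠ 1 := by
    intro h1
    rw [h1] at hdeg
    simp at hdeg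
  have hra : (a %ₘ p).natDegree ≤ 1 := by
    have := Polynomial.natDegree_modByMonic_lt a hmon hp1
    omega
  have hrb : (b %ₘ p).natDegree ≤ 1 := by
    have := Polynomial.natDegree_modByMonic_lt b hmon hp1
    omega
  obtain ⟨a1, a0, ha⟩ := Polynomial.exists_eq_X_add_C_of_natDegree_le_one hra
  obtain ⟨b1, b0, hb⟩ := Polynomial.exists_eq_X_add_C_of_natDegree_le_one hrb
  have hda := Polynomial.modByMonic_add_div a p
  have hdb := Polynomial.modByMonic_add_div b p
  rw [ha] at hda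
  rw [hb] at hdb
  -- the remainder of `a^2 + b^2`
  have hrem : p ∣ C (2 * (a0 * a1 + b0 * b1)) * X
      + C (a0 ^ 2 + b0 ^ 2 - c * (a1 ^ 2 + b1 ^ 2)) := by
    have e : C (2 * (a0 * a1 + b0 * b1)) * X + C (a0 ^ 2 + b0 ^ 2 - c * (a1 ^ 2 + b1 ^ 2))
        = (a ^ 2 + b ^ 2) - p * (C (a1 ^ 2 + b1 ^ 2)
          + 2 * (C a1 * X + C a0) * (a /ₘ p) + p * (a /ₘ p) ^ 2
          + 2 * (C b1 * X + C b0) * (b /ₘ p) + p * (b /ₘ p) ^ 2) := by
      conv_rhs => rw [← hda, ← hdb]
      rw [hda, hdb]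
      have e1 : a ^ 2 = (C a1 * X + C a0 + p * (a /ₘ p)) ^ 2 := by rw [hda]
      have e2 : b ^ 2 = (C b1 * X + C b0 + p * (b /ₘ p)) ^ 2 := by rw [hdb]
      rw [e1, e2, hp]
      simp only [C_add, C_mul, C_sub, C_pow]
      have : (C 2 : k[X]) = 2 := rfl
      rw [this]
      ring
    rw [e]
    exact dvd_sub h (dvd_mul_right _ _)
  have hz := Polynomial.eq_zero_of_dvd_of_natDegree_lt hrem (by
    rw [hdeg]
    refine lt_of_le_of_lt (?_ : _ ≤ 1) (by norm_num)
    compute_degree)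
  obtain ⟨h1, h0⟩ := lin_zero _ _ hz
  have h1' : a0 * a1 + b0 * b1 = 0 := by
    rcases mul_eq_zero.mp h1 with h1 | h1
    · exact absurd h1 h2
    · exact h1
  set P := a1 ^ 2 + b1 ^ 2 with hP
  have hP0 : P = 0 := by
    by_contra hne
    apply hc ((a0 * b1 - a1 * b0) / P)
    rw [div_pow, div_eq_iff (pow_ne_zero 2 hne)]
    have : (a0 * b1 - a1 * b0) ^ 2 = (a0 ^ 2 + b0 ^ 2) * P - (a0 * a1 + b0 * b1) ^ 2 := by
      rw [hP]; ring
    rw [this, h1']
    have : a0 ^ 2 + b0 ^ 2 = c * P := by linear_combination h0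
    rw [this]; ring
  obtain ⟨ha1, hb1⟩ := hk a1 b1 hP0
  have h00 : a0 ^ 2 + b0 ^ 2 = 0 := by
    rw [hP0] at h0; simpa using h0
  obtain ⟨ha0, hb0⟩ := hk a0 b0 h00
  rw [ha1, ha0] at hda
  rw [hb1, hb0] at hdb
  simp at hda hdb
  exact ⟨⟨_, hda.symm⟩, ⟨_, hdb.symm⟩⟩

lemma descent (hk : ∀ a b : k, a ^ 2 + b ^ 2 = 0 → a = 0 ∧ b = 0) {c : k}
    (hc : ∀ r : k, r ^ 2 ≠ c) :
    ∀ (n : ℕ) (a b d : k[X]), d.natDegree = n → a ^ 2 + b ^ 2 = (X ^ 2 + C c : k[X]) * d ^ 2 →
      d = 0 := by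
  intro n
  induction n using Nat.strong_induction_on with
  | _ n ih =>
    intro a b d hn h
    by_contra hd
    set p : k[X] := X ^ 2 + C c with hp
    have hdeg : p.natDegree = 2 := by
      rw [hp]; compute_degree!
    have hp0 : p ≠ 0 := by
      intro h0; rw [h0] at hdeg; simp at hdeg
    obtain ⟨⟨a', ha'⟩, ⟨b', hb'⟩⟩ := dvd_both hk hc a b (by rw [h]; exact dvd_mul_right _ _)
    rw [← hp] at ha' hb'
    have h1 : p * (a' ^ 2 + b' ^ 2) = d ^ 2 := by
      apply mul_left_cancel₀ hp0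
      rw [← h, ha', hb']; ring
    obtain ⟨⟨d', hd'⟩, -⟩ := dvd_both hk hc d 0 (by
      rw [zero_pow two_ne_zero, add_zero, ← h1]; exact dvd_mul_right _ _)
    rw [← hp] at hd'
    have h2 : a' ^ 2 + b' ^ 2 = p * d' ^ 2 := by
      apply mul_left_cancel₀ hp0
      rw [h1, hd']; ring
    have hd'0 : d' ≠ 0 := by
      rintro rfl; apply hd; rw [hd']; simp
    have hlt : d'.natDegree < n := by
      rw [← hn, hd', Polynomial.natDegree_mul hp0 hd'0, hdeg]; omega
    exact hd'0 (ih _ hlt a' b' d' rfl h2)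

end Step

lemma common {B F : Type u} [CommRing B] [IsDomain B] [Field F] [Algebra B F] [IsFractionRing B F]
    (a b : F) : ∃ d A A' : B, d ≠ 0 ∧ algebraMap B F A = algebraMap B F d * a ∧
      algebraMap B F A' = algebraMap B F d * b := by
  obtain ⟨x, y, hy, hxy⟩ := IsFractionRing.div_surjective (A := B) a
  obtain ⟨x', y', hy', hxy'⟩ := IsFractionRing.div_surjective (A := B) b
  have h1 : algebraMap B F y ≠ 0 := by
    intro h0
    rw [map_eq_zero_iff _ (IsFractionRing.injective _ _)] at h0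
    exact nonZeroDivisors.ne_zero hy h0
  have h2 : algebraMap B F y' ≠ 0 := by
    intro h0
    rw [map_eq_zero_iff _ (IsFractionRing.injective _ _)] at h0
    exact nonZeroDivisors.ne_zero hy' h0
  refine ⟨y * y', x * y', x' * y, mul_ne_zero (nonZeroDivisors.ne_zero hy)
    (nonZeroDivisors.ne_zero hy'), ?_, ?_⟩
  · rw [map_mul, map_mul, ← hxy]
    field_simp
  · rw [map_mul, map_mul, ← hxy']
    field_simp

section Base

variable {K : Type u} [Field K]

lemma aniso (hK : ¬ IsSumSq (-1 : K)) (a b : K) (h : a ^ 2 + b ^ 2 = 0) : a = 0 ∧ b = 0 := by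
  have key : ∀ a b : K, a ^ 2 + b ^ 2 = 0 → b = 0 := by
    intro a b h
    by_contra hb
    apply hK
    have : (-1 : K) = (a / b) * (a / b) := by
      field_simp
      linear_combination -h
    rw [this]
    exact IsSumSq.mul_self _
  exact ⟨key b a (by linear_combination h), key a b h⟩

lemma charZero (hK : ¬ IsSumSq (-1 : K)) : CharZero K := by
  refine charZero_of_inj_zero ?_
  intro n hn
  by_contra h
  obtain ⟨m, rfl⟩ := Nat.exists_eq_succ_of_ne_zero h
  apply hK
  have hm : (-1 : K) = (m : K) := by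
    push_cast at hn
    linear_combination -hn
  rw [hm]
  have : ∀ j : ℕ, IsSumSq (j : K) := by
    intro j
    induction j with
    | zero => simpa using (IsSumSq.zero : IsSumSq (0 : K))
    | succ j ih =>
      push_cast
      exact ih.add (by simpa using (IsSumSq.mul_self (1 : K)))
  exact this m

lemma aniso_mv (hK : ¬ IsSumSq (-1 : K)) (f g : MvPolynomial (Fin 1) K)
    (h : f ^ 2 + g ^ 2 = 0) : f = 0 ∧ g = 0 := by
  haveI := charZero hK
  have key : ∀ x : Fin 1 → K, MvPolynomial.eval x f = 0 ∧ MvPolynomial.eval x g = 0 := by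
    intro x
    apply aniso hK
    rw [← map_pow, ← map_pow, ← map_add, h, map_zero]
  constructor
  · apply MvPolynomial.funext
    intro x
    rw [(key x).1, map_zero]
  · apply MvPolynomial.funext
    intro x
    rw [(key x).2, map_zero]

lemma aniso_frac (hK : ¬ IsSumSq (-1 : K)) (a b : FractionRing (MvPolynomial (Fin 1) K))
    (h : a ^ 2 + b ^ 2 = 0) : a = 0 ∧ b = 0 := by
  obtain ⟨d, A, B, hd, hA, hB⟩ := common (B := MvPolynomial (Fin 1) K) a b
  have hd0 : algebraMap (MvPolynomial (Fin 1) K) (FractionRing (MvPolynomial (Fin 1) K)) d ≠ 0 := by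
    intro h0
    rw [map_eq_zero_iff _ (IsFractionRing.injective _ _)] at h0
    exact hd h0
  have hAB : A ^ 2 + B ^ 2 = 0 := by
    apply IsFractionRing.injective (MvPolynomial (Fin 1) K) (FractionRing (MvPolynomial (Fin 1) K))
    rw [map_add, map_pow, map_pow, map_zero, hA, hB]
    linear_combination (algebraMap (MvPolynomial (Fin 1) K)
      (FractionRing (MvPolynomial (Fin 1) K)) d) ^ 2 * h
  obtain ⟨hA0, hB0⟩ := aniso_mv hK A B hAB
  rw [hA0, map_zero] at hA
  rw [hB0, map_zero] at hB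
  constructor
  · rcases mul_eq_zero.mp hA.symm with h | h
    · exact absurd h hd0
    · exact h
  · rcases mul_eq_zero.mp hB.symm with h | h
    · exact absurd h hd0
    · exact h

lemma not_sq (hK : ¬ IsSumSq (-1 : K)) (r : FractionRing (MvPolynomial (Fin 1) K)) :
    r ^ 2 ≠ algebraMap (MvPolynomial (Fin 1) K) (FractionRing (MvPolynomial (Fin 1) K))
      (1 + MvPolynomial.X 0 ^ 2) := by
  intro h
  haveI := charZero hK
  have hint : IsIntegral (MvPolynomial (Fin 1) K) r := by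
    apply IsIntegral.of_pow (n := 2) (by norm_num)
    rw [h]
    exact isIntegral_algebraMap
  obtain ⟨s, hs⟩ := IsIntegrallyClosed.isIntegral_iff.mp hint
  have hs2 : s ^ 2 = 1 + MvPolynomial.X 0 ^ 2 := by
    apply IsFractionRing.injective (MvPolynomial (Fin 1) K) (FractionRing (MvPolynomial (Fin 1) K))
    rw [map_pow, hs, h]
  set t : K[X] := MvPolynomial.aeval (fun _ => (X : K[X])) s with ht
  have ht2 : t ^ 2 = 1 + X ^ 2 := by
    rw [ht, ← map_pow, hs2]
    simp
  have hdeg : t.natDegree ≤ 1 := by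
    have h1 : (t ^ 2).natDegree = 2 := by
      rw [ht2]; compute_degree!
    rw [Polynomial.natDegree_pow] at h1
    omega
  obtain ⟨a, b, hab⟩ := Polynomial.exists_eq_X_add_C_of_natDegree_le_one hdeg
  rw [hab] at ht2
  have e : (C a * X + C b : K[X]) ^ 2 = C (a ^ 2) * X ^ 2 + C (2 * a * b) * X + C (b ^ 2) := by
    simp only [C_mul, C_pow]
    have : (C 2 : K[X]) = 2 := rfl
    rw [this]
    ring
  rw [e] at ht2
  obtain ⟨h2, h1, h0⟩ := quad_eq _ _ _ ht2
  have h22 : (2 : K) ≠ 0 := two_ne_zero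
  rcases mul_eq_zero.mp h1 with h1 | h1
  · rcases mul_eq_zero.mp h1 with h1 | h1
    · exact h22 h1
    · rw [h1] at h2; simp at h2
  · rw [h1] at h0; simp at h0

end Base

theorem t : Pool.Agent.Y211.PY.S_P3.{u} := by
  intro K _ hK
  rintro ⟨a, b, h⟩
  obtain ⟨d, A, B, hd0, hA, hB⟩ := common (B := MvPolynomial (Fin 2) K) a b
  have hAB : A ^ 2 + B ^ 2 = (MvPolynomial.X 0 ^ 2 + (1 + MvPolynomial.X 1 ^ 2)) * d ^ 2 := by
    apply IsFractionRing.injective (MvPolynomial (Fin 2) K) (FractionRing (MvPolynomial (Fin 2) K))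
    simp only [map_add, map_mul, map_pow, map_one]
    rw [hA, hB]
    linear_combination -(algebraMap (MvPolynomial (Fin 2) K)
      (FractionRing (MvPolynomial (Fin 2) K)) d) ^ 2 * h
  let k := FractionRing (MvPolynomial (Fin 1) K)
  let φ : MvPolynomial (Fin 2) K →+* k[X] :=
    (Polynomial.mapRingHom (algebraMap (MvPolynomial (Fin 1) K) k)).comp
      (MvPolynomial.finSuccEquiv K 1 : MvPolynomial (Fin 2) K →+* Polynomial (MvPolynomial (Fin 1) K))
  have hφ : Function.Injective φ := by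
    exact (Polynomial.map_injective _ (IsFractionRing.injective _ _)).comp
      (MvPolynomial.finSuccEquiv K 1).injective
  have hX0 : φ (MvPolynomial.X 0) = X := by
    simp [φ, MvPolynomial.finSuccEquiv_X_zero]
  have hX1 : φ (MvPolynomial.X 1) = C (algebraMap (MvPolynomial (Fin 1) K) k (MvPolynomial.X 0)) := by
    have : MvPolynomial.finSuccEquiv K 1 (MvPolynomial.X 1) = C (MvPolynomial.X 0) :=
      MvPolynomial.finSuccEquiv_X_succ (j := 0)
    simp [φ, this]
  have hφd : φ d = 0 := by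
    refine descent (aniso_frac hK) (not_sq hK) _ (φ A) (φ B) (φ d) rfl ?_
    rw [← map_pow, ← map_pow, ← map_add, hAB, map_mul, map_add, map_pow, map_pow, map_add,
      map_pow, hX0, hX1, map_one, map_add, map_one, map_pow, C_add, C_pow, C_1]
  exact hd0 (hφ (by rw [hφd, map_zero]))

end Pool.Agent.Y839.PY
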